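import Pool.Agent.H95.DR.Targets

/-!
# MP_52e316_nt, board `dfx_modules`, row ADX: the data exist
-/

set_option autoImplicit false

open MeasureTheory Set Filter NumberField
open scoped Real nonZeroDivisors Matrix MatrixGroups
open Pool.Agent.H31.CN Pool.Agent.H89.FM Pool.Agent.H61.FM Pool.Agent.H89.FC Pool.Agent.H95.FC
open Pool.Agent.H89.DF Pool.Agent.H95.DR

namespace Pool.Agent.H30.DF

theorem pf_DDX (hOBGr : T_OBGr) (hVIGr : T_VIGr) (hLTX : Pool.Agent.H95.FC.T_LTX)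
    (hUEX : T_UEX) : T_DDX := by
  intro K _ _ D f σ σ' hR hf
  choose I hI using fun c : ClassGroup (𝓞 K) => ClassGroup.mk0_surjective c
  have h1 : ∀ c, ∃ (α β : 𝓞 K) (Q : QF), dsc Q = -(D : ℤ) ∧
      OBr σ σ' (I c : Ideal (𝓞 K)) α β Q := fun c =>
    hOBGr K D σ σ' hR (I c) (nonZeroDivisors.coe_ne_zero (I c))
  choose α β Q hQ hO using h1
  choose b hb using fun c => hVIGr K D σ σ' hR (I c) (α c) (β c) (Q c) (hO c)
  have h2 : ∀ c, ∃ (T : Finset (ℤ × ℤ)) (W : ℤ × ℤ → ℤ × ℤ), LT f (Q c) T W :=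
    fun c => hLTX f (Q c) hf
  choose T W hT using h2
  obtain ⟨η, hη⟩ := hUEX K D f σ σ' hR hf
  exact ⟨⟨I, α, β, Q, b, T, W, η, hI, hQ, hO, hb, hT, hη⟩⟩

end Pool.Agent.H30.DF
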