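import Pool.Agent.H95.DR.Targets

/-!
# MP_52e316_nt, board `dfx_modules`, row APH: the complex numbers `ph`
-/

set_option autoImplicit false

open MeasureTheory Set Filter NumberField
open scoped Real nonZeroDivisors Matrix MatrixGroups
open Pool.Agent.H31.CN Pool.Agent.H89.FM Pool.Agent.H61.FM Pool.Agent.H89.FC Pool.Agent.H95.FC
open Pool.Agent.H89.DF Pool.Agent.H95.DR

namespace Pool.Agent.H30.DF

theorem ph_alg (X Y a b : ℂ) (h : X * Y = 1) :
    (X * a + Y * b * Complex.I) * ((X * a) ^ 2 + (Y * b) ^ 2) =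
      (((X * a) ^ 2 - (Y * b) ^ 2) + 2 * (a * b) * Complex.I) * (X * a - Y * b * Complex.I) := by
  linear_combination (2 * Y * a * b ^ 2 + 2 * X * a ^ 2 * b * Complex.I) * h +
    2 * Y * a * b ^ 2 * Complex.I_sq

theorem pf_PHX (hTRA : T_TRA) : T_PHX := by
  intro K _ _ σ σ' τ a ha
  have haK : (a : K) ≠ 0 := by
    intro h
    apply ha
    exact_mod_cast h
  obtain ⟨A, hA⟩ : ∃ A : ℝ, A = σ (a : K) := ⟨_, rfl⟩
  obtain ⟨B, hB⟩ : ∃ B : ℝ, B = σ' (a : K) := ⟨_, rfl⟩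
  have hA0 : A ≠ 0 := by
    rw [hA]
    exact (map_ne_zero σ).2 haK
  have hB0 : B ≠ 0 := by
    rw [hB]
    exact (map_ne_zero σ').2 haK
  obtain ⟨t, ht⟩ : ∃ t : ℝ, t = τ + lg σ σ' a := ⟨_, rfl⟩
  have hlg : lg σ σ' a = Real.log |A / B| := by
    rw [hA, hB]
    rfl
  obtain ⟨x, hx⟩ : ∃ x : ℝ, x = Real.exp (τ / 2) := ⟨_, rfl⟩
  obtain ⟨y, hy⟩ : ∃ y : ℝ, y = Real.exp (-(τ / 2)) := ⟨_, rfl⟩
  have hxy : x * y = 1 := by
    rw [hx, hy, ← Real.exp_add, add_neg_cancel, Real.exp_zero]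
  have hx2 : x ^ 2 = Real.exp τ := by
    rw [hx, ← Real.exp_nat_mul]
    congr 1
    push_cast
    ring
  have hy2 : y ^ 2 = Real.exp (-τ) := by
    rw [hy, ← Real.exp_nat_mul]
    congr 1
    push_cast
    ring
  have hx0 : 0 < x := by
    rw [hx]
    exact Real.exp_pos _
  have hab : 0 < |A / B| := abs_pos.2 (div_ne_zero hA0 hB0)
  have hAB0 : 0 < |A * B| := abs_pos.2 (mul_ne_zero hA0 hB0)
  have e1 : |A * B| * Real.exp t = (x * A) ^ 2 := by
    rw [ht, hlg, Real.exp_add, Real.exp_log hab, mul_pow, hx2]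
    have h1 : |A * B| * |A / B| = A ^ 2 := by
      rw [← abs_mul]
      have h2 : A * B * (A / B) = A ^ 2 := by field_simp
      rw [h2, abs_of_nonneg (sq_nonneg A)]
    calc |A * B| * (Real.exp τ * |A / B|) = Real.exp τ * (|A * B| * |A / B|) := by ring
      _ = Real.exp τ * A ^ 2 := by rw [h1]
  have e2 : |A * B| * Real.exp (-t) = (y * B) ^ 2 := by
    rw [ht, hlg, neg_add, Real.exp_add, Real.exp_neg (Real.log |A / B|), Real.exp_log hab,
      mul_pow, hy2]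
    have h1 : |A * B| * |A / B|⁻¹ = B ^ 2 := by
      rw [← abs_inv, ← abs_mul]
      have h2 : A * B * (A / B)⁻¹ = B ^ 2 := by field_simp
      rw [h2, abs_of_nonneg (sq_nonneg B)]
    calc |A * B| * (Real.exp (-τ) * |A / B|⁻¹) = Real.exp (-τ) * (|A * B| * |A / B|⁻¹) := by
          ring
      _ = Real.exp (-τ) * B ^ 2 := by rw [h1]
  have e3 : 2 * |A * B| * Real.cosh t = (x * A) ^ 2 + (y * B) ^ 2 := by
    rw [Real.cosh_eq, ← e1, ← e2]
    ring
  have e4 : 2 * |A * B| * Real.sinh t = (x * A) ^ 2 - (y * B) ^ 2 := by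
    rw [Real.sinh_eq, ← e1, ← e2]
    ring
  obtain ⟨p, hp⟩ : ∃ p : ℂ, p = ph σ σ' τ a := ⟨_, rfl⟩
  have hp' : p = ((x * A : ℝ) : ℂ) + ((y * B : ℝ) : ℂ) * Complex.I := by
    rw [hp, hx, hy, hA, hB]
    rfl
  have hpc : (starRingEnd ℂ) p = ((x * A : ℝ) : ℂ) - ((y * B : ℝ) : ℂ) * Complex.I := by
    rw [hp', map_add, map_mul, Complex.conj_ofReal, Complex.conj_ofReal, Complex.conj_I]
    ring
  have hn : Complex.normSq p = 2 * |A * B| * Real.cosh t := by
    rw [hp', Complex.normSq_add_mul_I, e3]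
  have hp0 : p ≠ 0 := by
    rw [← Complex.normSq_pos, hn]
    have := Real.cosh_pos t
    positivity
  have hpc0 : (starRingEnd ℂ) p ≠ 0 := (map_ne_zero _).2 hp0
  have hw : wp σ σ' τ a = p / (starRingEnd ℂ) p := by
    rw [hp]
    rfl
  have hch : ((Real.cosh t : ℝ) : ℂ) ≠ 0 := by
    exact_mod_cast (Real.cosh_pos t).ne'
  -- the key formula
  have key : ∀ s : ℝ, |A * B| * s = A * B →
      wp σ σ' τ a = (((Real.sinh t : ℝ) : ℂ) + (s : ℂ) * Complex.I) /
        ((Real.cosh t : ℝ) : ℂ) := by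
    intro s hs
    rw [hw, div_eq_div_iff hpc0 hch]
    have h2 : ((2 * |A * B| : ℝ) : ℂ) ≠ 0 := by
      exact_mod_cast (by positivity : (2 * |A * B| : ℝ) ≠ 0)
    apply mul_left_cancel₀ h2
    have e3' : ((2 * |A * B| : ℝ) : ℂ) * ((Real.cosh t : ℝ) : ℂ) =
        ((x : ℂ) * A) ^ 2 + ((y : ℂ) * B) ^ 2 := by
      exact_mod_cast congrArg (fun r : ℝ => (r : ℂ)) e3
    have e4' : ((2 * |A * B| : ℝ) : ℂ) * ((Real.sinh t : ℝ) : ℂ) =
        ((x : ℂ) * A) ^ 2 - ((y : ℂ) * B) ^ 2 := by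
      exact_mod_cast congrArg (fun r : ℝ => (r : ℂ)) e4
    have e5' : ((2 * |A * B| : ℝ) : ℂ) * (s : ℂ) = 2 * ((A : ℂ) * B) := by
      have h3 : 2 * |A * B| * s = 2 * (A * B) := by rw [mul_assoc, hs]
      exact_mod_cast congrArg (fun r : ℝ => (r : ℂ)) h3
    have h6 := ph_alg (x : ℂ) y A B (by exact_mod_cast congrArg (fun r : ℝ => (r : ℂ)) hxy)
    rw [hpc, hp']
    push_cast at h6 e3' e4' e5' ⊢
    linear_combination h6 + ((x : ℂ) * A + (y : ℂ) * B * Complex.I) * e3' -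
      ((x : ℂ) * A - (y : ℂ) * B * Complex.I) * e4' -
      ((x : ℂ) * A - (y : ℂ) * B * Complex.I) * Complex.I * e5'
  refine ⟨?_, ?_, ?_, ?_⟩
  · rw [← hp]
    exact hp0
  · rw [hw, norm_div, Complex.norm_conj]
    exact div_self (norm_ne_zero_iff.2 hp0)
  · rw [← hp, hn, ← hA, ← hB, ← ht]
  · intro κ m
    rw [← hA, ← hB, ← ht]
    have hur := hTRA.1 t
    rcases lt_or_gt_of_ne (mul_ne_zero hA0 hB0) with h0 | h0
    · have h1 := key (-1) (by rw [abs_of_neg h0]; ring)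
      have h2 : wp σ σ' τ a * ur t = 1 := by
        rw [h1, hur, div_mul_div_comm, div_eq_one_iff_eq (mul_ne_zero hch hch)]
        have h3 : ((Real.cosh t : ℝ) : ℂ) ^ 2 = ((Real.sinh t : ℝ) : ℂ) ^ 2 + 1 := by
          exact_mod_cast congrArg (fun r : ℝ => (r : ℂ)) (Real.cosh_sq t)
        push_cast at h3 ⊢
        linear_combination -h3 - Complex.I_sq
      have h4 : wp σ σ' τ a = (ur t)⁻¹ := eq_inv_of_mul_eq_one_left h2
      rw [Real.sign_of_neg h0, h4, trr, inv_zpow', inv_zpow', neg_neg]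
      have h5 : ((-1 : ℂ)) ^ κ * (-1) ^ κ = 1 := by
        rw [← mul_pow]
        norm_num
      push_cast
      linear_combination (-(ur t ^ (-m)) / 2) * h5
    · have h1 := key 1 (by rw [abs_of_pos h0]; ring)
      have h4 : wp σ σ' τ a = ur t := by
        rw [h1, hur]
        push_cast
        ring
      rw [Real.sign_of_pos h0, h4, trr]
      push_cast
      rw [one_pow, one_mul]

end Pool.Agent.H30.DF
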