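import Pool.Agent.H95.DR.Targets

/-!
# MP_52e316_nt, board `dfx_modules`, row AUA: the action of the unit on the vectors
-/

set_option autoImplicit false

open MeasureTheory Set Filter NumberField
open scoped Real nonZeroDivisors Matrix MatrixGroups
open Pool.Agent.H31.CN Pool.Agent.H89.FM Pool.Agent.H61.FM Pool.Agent.H89.FC Pool.Agent.H95.FC
open Pool.Agent.H89.DF Pool.Agent.H95.DR

namespace Pool.Agent.H30.DF

section

variable {K : Type} [Field K] [NumberField K]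

omit [NumberField K] in
theorem lv_lin (α β : 𝓞 K) (a b : ℤ) (v w : ℤ × ℤ) :
    lv K α β (a * v.1 + b * w.1, a * v.2 + b * w.2) =
      (a : 𝓞 K) * lv K α β v + (b : 𝓞 K) * lv K α β w := by
  simp only [lv]
  push_cast
  ring

theorem lv_inj {σ σ' : K →+* ℝ} {I : Ideal (𝓞 K)} {α β : 𝓞 K} {Q : QF}
    (h : OBr σ σ' I α β Q) {v w : ℤ × ℤ} (hvw : lv K α β v = lv K α β w) : v = w := by
  have h1 := lv_lin α β 1 (-1) v w
  have h2 : lv K α β (1 * v.1 + (-1) * w.1, 1 * v.2 + (-1) * w.2) = 0 := by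
    rw [h1, hvw]
    push_cast
    ring
  have h3 := h.inj _ h2
  rw [Prod.ext_iff] at h3
  obtain ⟨h4, h5⟩ := h3
  simp only [Prod.fst_zero, Prod.snd_zero] at h4 h5
  ext
  · omega
  · omega

theorem obr_ne {σ σ' : K →+* ℝ} {I : Ideal (𝓞 K)} {α β : 𝓞 K} {Q : QF}
    (h : OBr σ σ' I α β Q) : (Ideal.absNorm I : ℝ) ≠ 0 := by
  have h1 : I ≠ ⊥ := by
    intro h0
    have h2 : lv K α β (1, 0) ∈ I := (h.mem _).2 ⟨_, rfl⟩
    rw [h0, Ideal.mem_bot] at h2
    have h3 := h.inj _ h2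
    rw [Prod.ext_iff] at h3
    exact one_ne_zero h3.1
  have h2 : Ideal.absNorm I ≠ 0 := fun h0 => h1 (Ideal.absNorm_eq_zero_iff.1 h0)
  exact_mod_cast h2

end

theorem pf_UAC : T_UAC := by
  intro K _ _ σ σ' f I α β Q η hf hO hU
  have hmem : ∀ v, lv K α β v ∈ I := fun v => (hO.mem _).2 ⟨v, rfl⟩
  have h1 : ∀ (γ : 𝓞 K) (v : ℤ × ℤ), ∃ w, lv K α β w = γ * lv K α β v := by
    intro γ v
    obtain ⟨w, hw⟩ := (hO.mem _).1 (I.mul_mem_left γ (hmem v))
    exact ⟨w, hw.symm⟩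
  choose m hm using h1
  let E : ℤ × ℤ ≃ ℤ × ℤ :=
    { toFun := fun v => m (η : 𝓞 K) v
      invFun := fun v => m ((η⁻¹ : (𝓞 K)ˣ) : 𝓞 K) v
      left_inv := by
        intro v
        apply lv_inj hO
        rw [hm, hm, ← mul_assoc, Units.inv_mul, one_mul]
      right_inv := by
        intro v
        apply lv_inj hO
        rw [hm, hm, ← mul_assoc, Units.mul_inv, one_mul] }
  have hE : ∀ v, lv K α β (E v) = η * lv K α β v := fun v => hm _ v
  obtain ⟨n, hn⟩ := hU.rat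
  obtain ⟨γ, hγ⟩ := Ideal.mem_span_singleton'.1 hn
  have hlin : ∀ v, ∃ w : ℤ × ℤ, E v = (n * v.1 + (f : ℤ) * w.1, n * v.2 + (f : ℤ) * w.2) := by
    intro v
    refine ⟨m γ v, ?_⟩
    apply lv_inj hO
    rw [hE, lv_lin, hm]
    have e1 : (η : 𝓞 K) = (n : 𝓞 K) + γ * (f : 𝓞 K) := by
      rw [hγ]
      ring
    rw [e1]
    push_cast
    ring
  have hcop : IsCoprime n (f : ℤ) := by
    obtain ⟨w, hw⟩ := hlin (E.symm (1, 0))
    rw [Equiv.apply_symm_apply, Prod.ext_iff] at hw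
    refine ⟨(E.symm (1, 0)).1, w.1, ?_⟩
    have h2 := hw.1
    simp only at h2
    linarith
  refine ⟨E, hE, fun v => ⟨fun h => ?_, fun h => ?_⟩, fun V v => ?_, fun v => ?_, fun J v => ?_⟩
  · apply hO.inj
    have h2 := hE v
    rw [h] at h2
    have h3 : lv K α β (0 : ℤ × ℤ) = 0 := by simp [lv]
    rw [h3] at h2
    have h4 : (η : 𝓞 K) ≠ 0 := η.ne_zero
    exact (mul_eq_zero.1 h2.symm).resolve_left h4
  · apply hO.inj
    rw [hE, h]
    simp [lv]
  · obtain ⟨w, hw⟩ := hlin v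
    have e1 : det V (E v) = n * det V v + (f : ℤ) * det V w := by
      rw [hw]
      unfold det
      ring
    rw [e1]
    constructor
    · intro h
      have h2 : (f : ℤ) ∣ n * det V v := (dvd_add_left (Dvd.intro _ rfl)).1 h
      exact hcop.symm.dvd_of_dvd_mul_left h2
    · intro h
      exact dvd_add (Dvd.dvd.mul_left h _) (Dvd.intro _ rfl)
  · have h2 := hO.nrm (E v)
    have h3 := hO.nrm v
    rw [hE] at h2
    have e1 : ((((η : 𝓞 K) * lv K α β v : 𝓞 K)) : K) = ((η : 𝓞 K) : K) * (lv K α β v : K) := by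
      push_cast
      ring
    rw [e1, map_mul, map_mul] at h2
    have h4 : (Ideal.absNorm I : ℝ) * val Q (E v) = (Ideal.absNorm I : ℝ) * val Q v := by
      rw [← h2, ← h3]
      linear_combination (σ (lv K α β v : K) * σ' (lv K α β v : K)) * hU.nrm
    have h5 := mul_left_cancel₀ (obr_ne hO) h4
    exact_mod_cast h5
  · change lv K α β (E v) ∈ J ↔ lv K α β v ∈ J
    rw [hE]
    exact Ideal.unit_mul_mem_iff_mem J η.isUnit

end Pool.Agent.H30.DF
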